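import Pool.Agent.Lib.MP_3b3418_ag.PV.SpecH

/-!
# The coboundary of a coboundary is zero
-/

set_option autoImplicit false

namespace PV

open MP3s

theorem tCC : S_CC := by
  intro X V _ _ p φ
  funext β
  change ∑ k : Fin (p + 3), (-1 : ℂ) ^ (k : ℕ) • (∑ l : Fin (p + 2), (-1 : ℂ) ^ (l : ℕ) •
    φ fun r => β (k.succAbove (l.succAbove r))) = 0
  have e : ∑ k : Fin (p + 3), (-1 : ℂ) ^ (k : ℕ) • (∑ l : Fin (p + 2), (-1 : ℂ) ^ (l : ℕ) •
      φ fun r => β (k.succAbove (l.succAbove r))) =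
      ∑ x : Fin (p + 3) × Fin (p + 2), (-1 : ℂ) ^ ((x.1 : ℕ) + (x.2 : ℕ)) •
        φ fun r => β (x.1.succAbove (x.2.succAbove r)) := by
    rw [Fintype.sum_prod_type]
    refine Finset.sum_congr rfl fun k _ => ?_
    rw [Finset.smul_sum]
    refine Finset.sum_congr rfl fun l _ => ?_
    rw [smul_smul, ← pow_add]
  rw [e]
  refine Finset.sum_involution (fun x _ => (x.1.succAbove x.2, x.2.predAbove x.1))
    ?_ ?_ ?_ ?_
  · rintro ⟨k, l⟩ _
    have h1 : (fun r : Fin (p + 1) => β ((k.succAbove l).succAbove ((l.predAbove k).succAbove r))) =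
        fun r => β (k.succAbove (l.succAbove r)) := by
      funext r
      rw [Fin.succAbove_succAbove_succAbove_predAbove]
    simp only
    rw [h1, Fin.neg_one_pow_succAbove_add_predAbove, neg_smul, add_neg_cancel]
  · rintro ⟨k, l⟩ _ _ h
    exact Fin.succAbove_ne k l (Prod.mk.inj h).1
  · intro x _
    exact Finset.mem_univ _
  · rintro ⟨k, l⟩ _
    simp only
    rw [Fin.succAbove_succAbove_predAbove, Fin.predAbove_predAbove_succAbove]

end PV
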