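import Pool.Agent.Lib.MP_3b3418_ag.PV.SpecH

/-!
# Inv: degree zero cohomology and invariants
-/

set_option autoImplicit false

namespace PV

open MP3s

private theorem Inv_const {m : ℕ} {V : Type} [AddCommGroup V] [Module ℂ V]
    (φ : (Fin (0 + 1) → Bo m) → V) (h : cob 0 φ = 0) (β γ : Fin (0 + 1) → Bo m) : φ β = φ γ := by
  have h1 := congrFun h (![γ 0, β 0] : Fin (0 + 2) → Bo m)
  change ∑ k : Fin 2, (-1 : ℂ) ^ (k : ℕ) • φ
    (fun r => (![γ 0, β 0] : Fin 2 → Bo m) (k.succAbove r)) = 0 at h1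
  rw [Fin.sum_univ_two] at h1
  have e1 : (fun r : Fin (0 + 1) => (![γ 0, β 0] : Fin 2 → Bo m) ((0 : Fin 2).succAbove r)) = β := by
    funext r
    have hr : r = 0 := Fin.ext (by omega)
    subst hr
    rfl
  have e2 : (fun r : Fin (0 + 1) => (![γ 0, β 0] : Fin 2 → Bo m) ((1 : Fin 2).succAbove r)) = γ := by
    funext r
    have hr : r = 0 := Fin.ext (by omega)
    subst hr
    rfl
  rw [e1, e2] at h1
  have h2 : φ β - φ γ = 0 := by
    have : ((-1 : ℂ) ^ ((0 : Fin 2) : ℕ)) • φ β + ((-1 : ℂ) ^ ((1 : Fin 2) : ℕ)) • φ γ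
        = φ β - φ γ := by
      rw [Fin.val_zero, Fin.val_one, pow_zero, pow_one, one_smul, neg_smul, one_smul, sub_eq_add_neg]
    rw [← this]
    exact h1
  exact sub_eq_zero.1 h2

/-- **Inv.** -/
theorem tInv : S_Inv := by
  intro m V _ _ ρ f
  constructor
  · intro h v hv
    have h1 : IsCob ρ 0 fun _ : Fin (0 + 1) → Bo m => f v := by
      refine h (fun _ => v) ⟨Reg.const v, fun b _ => (hv b).symm⟩ ?_
      funext β
      change ∑ k : Fin 2, (-1 : ℂ) ^ (k : ℕ) • v = 0
      rw [Fin.sum_univ_two, Fin.val_zero, Fin.val_one, pow_zero, pow_one, one_smul, neg_smul,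
        one_smul, add_neg_cancel]
    exact congrFun h1 fun _ => 1
  · intro h φ hφ hc
    change (fun β => f (φ β)) = 0
    funext β
    refine h (φ β) fun b => ?_
    rw [← hφ.2 b β]
    exact Inv_const φ hc _ _

end PV
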