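import Pool.Agent.Lib.MP_3b3418_ag.PV.SpecH

/-!
# Cochains with values in a submodule
-/

set_option autoImplicit false

namespace PV

open MP3s

theorem tKer : S_Ker := by
  intro m V' V _ _ _ _ ρ' ρ ι hinj heq p φ hφ hex
  have hmem : ∀ β, φ β ∈ LinearMap.range ι := fun β => by
    obtain ⟨v, hv⟩ := hex β
    exact ⟨v, hv⟩
  have h1 : Reg fun β => (⟨φ β, hmem β⟩ : LinearMap.range ι) := hφ.1.codRestrict _ hmem
  have h2 := h1.map ((LinearEquiv.ofInjective ι hinj).symm : LinearMap.range ι →ₗ[ℂ] V')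
  have key : ∀ β, ι ((LinearEquiv.ofInjective ι hinj).symm ⟨φ β, hmem β⟩) = φ β := by
    intro β
    have h3 := LinearEquiv.apply_symm_apply (LinearEquiv.ofInjective ι hinj) ⟨φ β, hmem β⟩
    have h4 := congrArg Subtype.val h3
    rw [LinearEquiv.ofInjective_apply] at h4
    exact h4
  refine ⟨fun β => (LinearEquiv.ofInjective ι hinj).symm ⟨φ β, hmem β⟩, ⟨h2, ?_⟩, key⟩
  intro b β
  apply hinj
  beta_reduce
  rw [key, heq, key]
  exact hφ.2 b β

end PV
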