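import Pool.Agent.Lib.MP_3b3418_ag.PV.SpecH

/-!
# Long exact sequence, connecting map upwards
-/

set_option autoImplicit false

namespace PV

open MP3s

private theorem LA_cobMap {X V W : Type} [AddCommGroup V] [Module ℂ V] [AddCommGroup W] [Module ℂ W]
    (p : ℕ) (L : V →ₗ[ℂ] W) (φ : (Fin (p + 1) → X) → V) :
    cob p (fun β => L (φ β)) = fun β => L (cob p φ β) := by
  funext β
  unfold cob
  rw [map_sum]
  refine Finset.sum_congr rfl fun k _ => ?_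
  rw [map_smul]

private theorem LA_cobSub {X V : Type} [AddCommGroup V] [Module ℂ V]
    (p : ℕ) (φ ψ : (Fin (p + 1) → X) → V) :
    cob p (fun β => φ β - ψ β) = fun β => cob p φ β - cob p ψ β := by
  funext β
  unfold cob
  rw [← Finset.sum_sub_distrib]
  refine Finset.sum_congr rfl fun k _ => ?_
  rw [smul_sub]

private theorem LA_core (hKer : S_Ker) {m : ℕ} {V' V V'' : Type} [AddCommGroup V'] [Module ℂ V']
    [AddCommGroup V] [Module ℂ V] [AddCommGroup V''] [Module ℂ V'']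
    {ρ' : Representation ℂ (Bo m) V'} {ρ : Representation ℂ (Bo m) V}
    {ρ'' : Representation ℂ (Bo m) V''} {ι : V' →ₗ[ℂ] V} {π : V →ₗ[ℂ] V''} {f' : V' →ₗ[ℂ] V'}
    {f : V →ₗ[ℂ] V} {f'' : V'' →ₗ[ℂ] V''} (hs : Ses ρ' ρ ρ'' ι π) (hc : Cmp ι π f' f f'') (q : ℕ)
    (c' : (Fin (q + 2) → Bo m) → V') (φ : (Fin (q + 1) → Bo m) → V) (hφ : IsCoch ρ q φ)
    (h0 : ∀ β, π (φ β) = 0) (h1 : ∀ β, cob q φ β = f (ι (c' β))) :
    ∃ χ, IsCoch ρ' q χ ∧ cob q χ = fun β => f' (c' β) := by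
  obtain ⟨χ, hχ, he⟩ := hKer m V' V ρ' ρ ι hs.inj hs.eι q φ hφ (fun β => (hs.ex _).1 (h0 β))
  refine ⟨χ, hχ, ?_⟩
  funext β
  apply hs.inj
  have e1 : ι (cob q χ β) = cob q (fun β => ι (χ β)) β := by rw [LA_cobMap]
  have e2 : (fun β => ι (χ β)) = φ := funext he
  rw [e1, e2, h1 β, hc.h1]

theorem tLA : S_CC → S_Lift → S_Ker → S_VZ → S_LA := by
  intro hCC hLift hKer hVZ m V' V V'' _ _ _ _ _ _ ρ' ρ ρ'' ι π f' f f'' q hrat hs hc hcom hz hv
    c' hc' hd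
  have a1 : IsCoch ρ (q + 1) (fun β => ι (c' β)) := (hVZ m V' V ρ' ρ).2.2.2.1 (q + 1) c' ι hc' hs.eι
  have a2 : cob (q + 1) (fun β => ι (c' β)) = 0 := by
    rw [LA_cobMap, hd]
    funext β
    exact map_zero ι
  obtain ⟨φ, hφ, hφ2⟩ := hv _ a1 a2
  have hφ3 : ∀ β, cob q φ β = ι (c' β) := fun β => congrFun hφ2 β
  have hπι : ∀ v, π (ι v) = 0 := fun v => (hs.ex (ι v)).2 ⟨v, rfl⟩
  have b1 : IsCoch ρ'' q (fun β => π (φ β)) := (hVZ m V V'' ρ ρ'').2.2.2.1 q φ π hφ hs.eπ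
  have b2 : cob q (fun β => π (φ β)) = 0 := by
    rw [LA_cobMap]
    funext β
    rw [hφ3 β]
    exact hπι _
  have b3 := hz _ b1 b2
  have d1 : IsCoch ρ q (fun β => f (φ β)) := (hVZ m V V ρ ρ).2.2.2.1 q φ f hφ hcom
  have d2 : ∀ β, cob q (fun β => f (φ β)) β = f (ι (c' β)) := by
    intro β
    rw [LA_cobMap]
    beta_reduce
    rw [hφ3 β]
  change ∃ χ, IsCoch ρ' q χ ∧ cob q χ = fun β => f' (c' β)
  cases q with
  | zero =>
    have b4 : (fun β => f'' (π (φ β))) = 0 := b3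
    refine LA_core hKer hs hc 0 c' _ d1 (fun β => ?_) d2
    rw [hc.h2]
    exact congrFun b4 β
  | succ p =>
    obtain ⟨ψ'', hψ'', e4⟩ := b3
    obtain ⟨ψ, hψ, e5⟩ := hLift m V V'' ρ ρ'' π hrat hs.surj hs.eπ p ψ'' hψ''
    have hVZ' := hVZ m V V ρ ρ
    have g1 : IsCoch ρ (p + 1) (cob p ψ) := hVZ'.2.2.2.2 p ψ hψ
    have g2 := (hVZ'.2.2.1 (p + 1) _ _ d1 g1).2
    refine LA_core hKer hs hc (p + 1) c' _ g2 (fun β => ?_) (fun β => ?_)
    · rw [map_sub, hc.h2]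
      have e6 : π (cob p ψ β) = cob p (fun β => π (ψ β)) β := by rw [LA_cobMap]
      have e7 : (fun β => π (ψ β)) = ψ'' := funext e5
      rw [e6, e7, e4, sub_self]
    · rw [LA_cobSub, hCC (Bo m) V p ψ]
      beta_reduce
      rw [d2 β]
      exact sub_zero _

end PV
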