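import Pool.Agent.Lib.MP_3b3418_ag.PV.SpecH

/-!
# Long exact sequence, the connecting map downwards
-/

set_option autoImplicit false

namespace PV

open MP3s

private theorem LB_map {X V W : Type} [AddCommGroup V] [Module ℂ V] [AddCommGroup W] [Module ℂ W]
    (L : V →ₗ[ℂ] W) (p : ℕ) (φ : (Fin (p + 1) → X) → V) (β : Fin (p + 2) → X) :
    cob p (fun β => L (φ β)) β = L (cob p φ β) := by
  unfold cob
  rw [map_sum]
  exact Finset.sum_congr rfl fun k _ => by rw [map_smul]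

private theorem LB_sub {X V : Type} [AddCommGroup V] [Module ℂ V] (p : ℕ)
    (φ ψ : (Fin (p + 1) → X) → V) (β : Fin (p + 2) → X) :
    cob p (fun β => φ β - ψ β) β = cob p φ β - cob p ψ β := by
  unfold cob
  rw [← Finset.sum_sub_distrib]
  exact Finset.sum_congr rfl fun k _ => by rw [smul_sub]

/-- **LB** (connecting map, downwards). -/
theorem tLB : S_CC → S_Lift → S_Ker → S_VZ → S_LB := by
  intro hCC hLift hKer hVZ m V' V V'' _ _ _ _ _ _ ρ' ρ ρ'' ι π f' f f'' q hRat hS hC hf hZ hVan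
    c'' hc'' hd''
  obtain ⟨φ, hφ, hπφ⟩ := hLift m V V'' ρ ρ'' π hRat hS.surj hS.eπ q c'' hc''
  have hdφ : IsCoch ρ (q + 1) (cob q φ) := (hVZ m V V ρ ρ).2.2.2.2 q φ hφ
  have hπι : ∀ v', π (ι v') = 0 := fun v' => (hS.ex _).2 ⟨v', rfl⟩
  have hπd : ∀ β, π (cob q φ β) = 0 := by
    intro β
    rw [← LB_map]
    have h1 : (fun β => π (φ β)) = c'' := funext hπφ
    rw [h1, hd'']
    rfl
  obtain ⟨c', hc', hιc'⟩ := hKer m V' V ρ' ρ ι hS.inj hS.eι (q + 1) (cob q φ) hdφ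
    fun β => (hS.ex _).1 (hπd β)
  have hdc' : cob (q + 1) c' = 0 := by
    funext β
    apply hS.inj
    rw [← LB_map]
    have h1 : (fun β => ι (c' β)) = cob q φ := funext hιc'
    rw [h1, hCC]
    exact (map_zero ι).symm
  obtain ⟨χ', hχ', hdχ'⟩ := hZ c' hc' hdc'
  have h1 : IsCoch ρ q (fun β => f (φ β)) := (hVZ m V V ρ ρ).2.2.2.1 q φ f hφ hf
  have h2 : IsCoch ρ q (fun β => ι (χ' β)) := (hVZ m V' V ρ' ρ).2.2.2.1 q χ' ι hχ' hS.eι
  have h3 : IsCoch ρ q (fun β => f (φ β) - ι (χ' β)) :=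
    ((hVZ m V V ρ ρ).2.2.1 q _ _ h1 h2).2
  have h4 : cob q (fun β => f (φ β) - ι (χ' β)) = 0 := by
    funext β
    rw [LB_sub, LB_map, LB_map, hdχ', ← hιc' β, hC.h1]
    exact sub_self _
  have h5 : IsCob ρ q fun β => f (φ β) - ι (χ' β) := hVan _ h3 h4
  rcases q with _ | k
  · change (fun β => f (φ β) - ι (χ' β)) = 0 at h5
    change (fun β => f'' (c'' β)) = 0
    funext β
    have h6 : f (φ β) = ι (χ' β) := sub_eq_zero.mp (congrFun h5 β)
    rw [← hπφ β, ← hC.h2, h6, hπι]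
    rfl
  · obtain ⟨ψ, hψ, hdψ⟩ := h5
    refine ⟨fun β => π (ψ β), (hVZ m V V'' ρ ρ'').2.2.2.1 k ψ π hψ hS.eπ, ?_⟩
    funext β
    rw [LB_map, hdψ, map_sub, hπι, sub_zero, hC.h2, hπφ]

end PV
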