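import Pool.Agent.Lib.MP_3b3418_ag.PV.SpecH

set_option autoImplicit false

namespace PV

open MP3s

private theorem LC_cobMap {X V W : Type} [AddCommGroup V] [Module ℂ V] [AddCommGroup W] [Module ℂ W]
    (L : V →ₗ[ℂ] W) (p : ℕ) (φ : (Fin (p + 1) → X) → V) (β : Fin (p + 2) → X) :
    cob p (fun γ => L (φ γ)) β = L (cob p φ β) := by
  unfold cob
  rw [map_sum]
  exact Finset.sum_congr rfl fun k _ => by rw [map_smul]

private theorem LC_cobSub {X V : Type} [AddCommGroup V] [Module ℂ V]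
    (p : ℕ) (φ ψ : (Fin (p + 1) → X) → V) (β : Fin (p + 2) → X) :
    cob p (fun γ => φ γ - ψ γ) β = cob p φ β - cob p ψ β := by
  unfold cob
  rw [← Finset.sum_sub_distrib]
  exact Finset.sum_congr rfl fun k _ => by rw [smul_sub]

theorem tLC : S_CC → S_Lift → S_Ker → S_VZ → S_LC := by
  intro hCC hLift hKer hVZ m V' V V'' _ _ _ _ _ _ ρ' ρ ρ'' ι π f' f f'' q hR hS hC hV hZ c' hc' hc'0
  obtain ⟨_, _, _, hMapι, _⟩ := hVZ m V' V ρ' ρ
  have hι : IsCoch ρ q (fun β => ι (c' β)) := hMapι q c' ι hc' hS.eι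
  have hι0 : cob q (fun β => ι (c' β)) = 0 := by
    funext β
    rw [LC_cobMap, hc'0, Pi.zero_apply, map_zero]
    rfl
  have h1 := hZ _ hι hι0
  rcases q with _ | p
  · -- degree 0
    have h2 : ∀ β, f (ι (c' β)) = 0 := fun β => congrFun h1 β
    change (fun β => f' (c' β)) = 0
    funext β
    apply hS.inj
    rw [hC.h1, h2, Pi.zero_apply, map_zero]
  · obtain ⟨χ, hχ, hdχ⟩ := h1
    obtain ⟨_, _, _, hMapπ, _⟩ := hVZ m V V'' ρ ρ''
    have hπχ : IsCoch ρ'' p (fun β => π (χ β)) := hMapπ p χ π hχ hS.eπ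
    have hπχ0 : cob p (fun β => π (χ β)) = 0 := by
      funext β
      rw [LC_cobMap, hdχ]
      change π (f (ι (c' β))) = 0
      rw [hC.h2, (hS.ex (ι (c' β))).2 ⟨c' β, rfl⟩, map_zero]
    have h3 := hV p rfl _ hπχ hπχ0
    -- it is enough to find a cochain of the subspace with the same coboundary
    have fin : ∀ χ₁ : (Fin (p + 1) → Bo m) → V, IsCoch ρ p χ₁ → (∀ β, cob p χ₁ β = cob p χ β) →
        (∀ β, π (χ₁ β) = 0) → IsCob ρ' (p + 1) fun β => f' (c' β) := by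
      intro χ₁ h4 h5 h6
      obtain ⟨χ', hχ', hιχ⟩ := hKer m V' V ρ' ρ ι hS.inj hS.eι p χ₁ h4 fun β => (hS.ex _).1 (h6 β)
      refine ⟨χ', hχ', ?_⟩
      funext β
      apply hS.inj
      have e : (fun γ => ι (χ' γ)) = χ₁ := funext hιχ
      rw [← LC_cobMap ι p χ' β, e, h5, hdχ, hC.h1]
    rcases p with _ | r
    · have h4 : ∀ β, π (χ β) = 0 := fun β => congrFun h3 β
      exact fin χ hχ (fun _ => rfl) h4
    · obtain ⟨ψ'', hψ'', hdψ⟩ := h3
      obtain ⟨ψ, hψ, hψπ⟩ := hLift m V V'' ρ ρ'' π hR hS.surj hS.eπ r ψ'' hψ''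
      obtain ⟨_, _, hAS, _, hCob⟩ := hVZ m V V ρ ρ
      have hcψ := hCob r ψ hψ
      refine fin (fun γ => χ γ - cob r ψ γ) (hAS (r + 1) χ (cob r ψ) hχ hcψ).2 (fun β => ?_)
        (fun β => ?_)
      · rw [LC_cobSub, hCC, Pi.zero_apply, sub_zero]
      · have e : (fun γ => π (ψ γ)) = ψ'' := funext hψπ
        rw [map_sub, ← LC_cobMap π r ψ β, e, hdψ]
        exact sub_self _

end PV
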