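import Pool.Agent.Lib.MP_3b3418_ag.PV.SpecH

set_option autoImplicit false

namespace PV

open MP3s

private theorem LD_cobMap {X V W : Type} [AddCommGroup V] [Module ℂ V] [AddCommGroup W] [Module ℂ W]
    (L : V →ₗ[ℂ] W) (p : ℕ) (φ : (Fin (p + 1) → X) → V) (β : Fin (p + 2) → X) :
    cob p (fun γ => L (φ γ)) β = L (cob p φ β) := by
  unfold cob
  rw [map_sum]
  exact Finset.sum_congr rfl fun k _ => by rw [map_smul]

private theorem LD_cobAdd {X V : Type} [AddCommGroup V] [Module ℂ V]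
    (p : ℕ) (φ ψ : (Fin (p + 1) → X) → V) (β : Fin (p + 2) → X) :
    cob p (fun γ => φ γ + ψ γ) β = cob p φ β + cob p ψ β := by
  unfold cob
  rw [← Finset.sum_add_distrib]
  exact Finset.sum_congr rfl fun k _ => by rw [smul_add]

private theorem LD_cobSub {X V : Type} [AddCommGroup V] [Module ℂ V]
    (p : ℕ) (φ ψ : (Fin (p + 1) → X) → V) (β : Fin (p + 2) → X) :
    cob p (fun γ => φ γ - ψ γ) β = cob p φ β - cob p ψ β := by
  unfold cob
  rw [← Finset.sum_sub_distrib]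
  exact Finset.sum_congr rfl fun k _ => by rw [smul_sub]

theorem tLD : S_CC → S_Lift → S_Ker → S_VZ → S_LD := by
  intro hCC hLift hKer hVZ m V' V V'' _ _ _ _ _ _ ρ' ρ ρ'' ι π f' f f'' q hR hS hC hf hZ hV c hc hc0
  obtain ⟨_, _, _, hMapπ, _⟩ := hVZ m V V'' ρ ρ''
  have hπc : IsCoch ρ'' q (fun β => π (c β)) := hMapπ q c π hc hS.eπ
  have hπc0 : cob q (fun β => π (c β)) = 0 := by
    funext β
    rw [LD_cobMap, hc0, Pi.zero_apply, map_zero]
    rfl
  have h1 := hV _ hπc hπc0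
  rcases q with _ | p
  · -- degree 0
    have h2 : ∀ β, π (c β) = 0 := fun β => congrFun h1 β
    obtain ⟨c', hc', hι⟩ := hKer m V' V ρ' ρ ι hS.inj hS.eι 0 c hc fun β => (hS.ex _).1 (h2 β)
    have hc'0 : cob 0 c' = 0 := by
      funext β
      apply hS.inj
      rw [Pi.zero_apply, map_zero, ← LD_cobMap ι 0 c' β]
      have e : (fun γ => ι (c' γ)) = c := funext hι
      rw [e, hc0]
      rfl
    have h3 := hZ c' hc' hc'0
    have h4 : ∀ β, f' (c' β) = 0 := fun β => congrFun h3 β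
    change (fun β => f (c β)) = 0
    funext β
    rw [← hι β, ← hC.h1, h4, map_zero]
    rfl
  · obtain ⟨φ'', hφ'', hd⟩ := h1
    obtain ⟨ψ, hψ, hψπ⟩ := hLift m V V'' ρ ρ'' π hR hS.surj hS.eπ p φ'' hφ''
    obtain ⟨_, _, hAS, hMapf, hCob⟩ := hVZ m V V ρ ρ
    have hdψ := hCob p ψ hψ
    have hsub := (hAS (p + 1) c (cob p ψ) hc hdψ).2
    have hφe : (fun γ => π (ψ γ)) = φ'' := funext hψπ
    have h2 : ∀ β, π (c β - cob p ψ β) = 0 := by
      intro β
      rw [map_sub, ← LD_cobMap π p ψ β, hφe, hd]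
      exact sub_self _
    obtain ⟨c', hc', hι⟩ := hKer m V' V ρ' ρ ι hS.inj hS.eι (p + 1) _ hsub
      fun β => (hS.ex _).1 (h2 β)
    have hc'0 : cob (p + 1) c' = 0 := by
      funext β
      apply hS.inj
      rw [Pi.zero_apply, map_zero, ← LD_cobMap ι (p + 1) c' β]
      have e : (fun γ => ι (c' γ)) = fun γ => c γ - cob p ψ γ := funext hι
      rw [e, LD_cobSub, hc0, hCC]
      exact sub_self _
    obtain ⟨χ', hχ', hdχ⟩ := hZ c' hc' hc'0
    obtain ⟨_, _, _, hMapι, _⟩ := hVZ m V' V ρ' ρ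
    refine ⟨fun β => f (ψ β) + ι (χ' β), (hAS p _ _ (hMapf p ψ f hψ hf)
      (hMapι p χ' ι hχ' hS.eι)).1, ?_⟩
    funext β
    rw [LD_cobAdd, LD_cobMap, LD_cobMap, hdχ, hC.h1, hι, map_sub]
    abel

end PV
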