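import Pool.Agent.Lib.MP_3b3418_ag.PV.SpecH

/-!
# Cochains lift along surjections
-/

set_option autoImplicit false

namespace PV

private theorem Lift_mul {X : Type} [Co X] {m : ℕ}
    (hmul : Mor (fun q : Bo m × Bo m => q.1 * q.2)) {f g : X → Bo m} (hf : Mor f) (hg : Mor g) :
    Mor fun x => f x * g x := by
  have hp : Mor fun x => (f x, g x) := Mor.pair hf hg
  intro i
  exact (hmul i).comp hp

private theorem Lift_inv {X : Type} [Co X] {m : ℕ}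
    (hinv : Mor (fun b : Bo m => b⁻¹)) {f : X → Bo m} (hf : Mor f) :
    Mor fun x => (f x)⁻¹ := by
  intro i
  exact (hinv i).comp hf

private theorem Lift_mor (hM : S_Mor) (m p : ℕ) :
    Mor (fun (β : Fin (p + 1) → Bo m) (r : Fin (p + 1)) => (β 0)⁻¹ * β r) := by
  have hmul : Mor (fun q : Bo m × Bo m => q.1 * q.2) := (hM m).2.2.1
  have hinv : Mor (fun b : Bo m => b⁻¹) := (hM m).2.2.2.1
  refine Mor.pi fun r => ?_
  have h0 : Mor fun β : Fin (p + 1) → Bo m => (β 0)⁻¹ := Lift_inv hinv (Mor.proj 0)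
  exact Lift_mul hmul h0 (Mor.proj r)

private theorem Lift_arg {m p : ℕ} (b : Bo m) (β : Fin (p + 1) → Bo m) :
    (fun r => (b * β 0)⁻¹ * (b * β r)) = fun r => (β 0)⁻¹ * β r := by
  funext r
  rw [mul_inv_rev, mul_assoc, inv_mul_cancel_left]

private theorem Lift_arg2 {m p : ℕ} (β : Fin (p + 1) → Bo m) :
    (fun r => β 0 * ((β 0)⁻¹ * β r)) = β := by
  funext r
  exact mul_inv_cancel_left _ _

theorem tLift : S_Mor → S_Lift := by
  intro hM m V V'' _ _ _ _ ρ ρ'' π hrat hsurj hcom p φ'' hφ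
  obtain ⟨⟨n, a, v'', ha, h1⟩, heq⟩ := hφ
  choose w hw using fun k => hsurj (v'' k)
  obtain ⟨Ψ, hΨ, hπ⟩ : ∃ Ψ : (Fin (p + 1) → Bo m) → V, Reg Ψ ∧ ∀ β, π (Ψ β) = φ'' β := by
    refine ⟨fun β => ∑ k, a k β • w k, ⟨n, a, w, ha, fun _ => rfl⟩, fun β => ?_⟩
    beta_reduce
    rw [map_sum, h1]
    exact Finset.sum_congr rfl fun k _ => by rw [map_smul, hw]
  have hg := Lift_mor hM m p
  have hΨg : Reg fun β : Fin (p + 1) → Bo m => Ψ fun r => (β 0)⁻¹ * β r := hΨ.comp hg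
  have h0 : Mor fun β : Fin (p + 1) → Bo m => β 0 := Mor.proj 0
  have hreg : Reg fun β : Fin (p + 1) → Bo m => ρ (β 0) (Ψ fun r => (β 0)⁻¹ * β r) :=
    Reg.act (θ := fun b => ρ b) hrat h0 hΨg
  refine ⟨fun β => ρ (β 0) (Ψ fun r => (β 0)⁻¹ * β r), ⟨hreg, ?_⟩, ?_⟩
  · intro b β
    beta_reduce
    rw [Lift_arg, map_mul]
    rfl
  · intro β
    beta_reduce
    rw [hcom, hπ, ← heq, Lift_arg2]

end PV
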