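import Pool.Agent.Lib.MP_3b3418_ag.PV.SpecH

/-!
# Perf: `SL_m (ℂ)` is perfect
-/

set_option autoImplicit false

namespace PV

open MP3s Matrix
open scoped commutatorElement

private theorem Perf_comm {m : ℕ} {i j : Fin m} (hij : i ≠ j) (a : ℂ) (ha : a ≠ 0) (b : ℂ) :
    SpecialLinearGroup.diag2n hij a ha * SpecialLinearGroup.transvection hij b =
      SpecialLinearGroup.transvection hij (a ^ 2 * b) * SpecialLinearGroup.diag2n hij a ha := by
  refine Subtype.ext (Matrix.ext fun k l => ?_)
  change (diagonal (fun k : Fin m => if k = i then a else if k = j then a⁻¹ else 1) *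
      (1 + single i j b) : Matrix (Fin m) (Fin m) ℂ) k l = ((1 + single i j (a ^ 2 * b)) *
      diagonal (fun k : Fin m => if k = i then a else if k = j then a⁻¹ else 1) :
        Matrix (Fin m) (Fin m) ℂ) k l
  rw [Matrix.diagonal_mul, Matrix.mul_diagonal, Matrix.add_apply, Matrix.add_apply,
    Matrix.one_apply, Matrix.single_apply, Matrix.single_apply]
  by_cases hk : k = i
  · subst hk
    by_cases hl : l = j
    · subst hl
      simp [hij, hij.symm]
      field_simp
    · have hl' : ¬ j = l := fun h => hl h.symm
      by_cases hkl : k = l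
      · subst hkl
        simp [hl']
      · simp [hl', hkl]
  · have hk' : ¬ i = k := fun h => hk h.symm
    by_cases hkl : k = l
    · subst hkl
      simp [hk']
    · simp [hk', hkl]

private theorem Perf_tv {m : ℕ} {i j : Fin m} (hij : i ≠ j) (c : ℂ) :
    SpecialLinearGroup.transvection hij c ∈ commutator (SLm m) := by
  have h2 : (2 : ℂ) ≠ 0 := two_ne_zero
  have h : ⁅SpecialLinearGroup.diag2n hij 2 h2, SpecialLinearGroup.transvection hij (c / 3)⁆ =
      SpecialLinearGroup.transvection hij c := by
    rw [commutatorElement_def, Perf_comm, mul_inv_cancel_right, SpecialLinearGroup.transvection_inv,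
      ← SpecialLinearGroup.transvection_add]
    congr 1
    ring
  rw [← h]
  exact Subgroup.commutator_mem_commutator (Subgroup.mem_top _) (Subgroup.mem_top _)

private theorem Perf_diag {m : ℕ} {i j : Fin m} (hij : i ≠ j) (a : ℂ) (ha : a ≠ 0) :
    SpecialLinearGroup.diag2n hij a ha =
      (SpecialLinearGroup.transvection hij a * SpecialLinearGroup.transvection hij.symm (-a⁻¹) *
        SpecialLinearGroup.transvection hij a) *
      (SpecialLinearGroup.transvection hij (-1) * SpecialLinearGroup.transvection hij.symm 1 *
        SpecialLinearGroup.transvection hij (-1)) := by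
  obtain ⟨N, hN⟩ : ∃ N : Matrix (Fin m) (Fin m) ℂ, N = 1 - single i i 1 - single j j 1 := ⟨_, rfl⟩
  have key : ∀ b : ℂ, b ≠ 0 →
      ((1 + single i j b) * (1 + single j i (-b⁻¹)) * (1 + single i j b) :
        Matrix (Fin m) (Fin m) ℂ) = N + single i j b - single j i b⁻¹ := by
    intro b hb
    rw [hN]
    simp only [mul_add, add_mul, mul_one, one_mul, single_mul_single_same,
      single_mul_single_of_ne _ _ _ _ hij, single_mul_single_of_ne _ _ _ _ hij.symm,
      mul_neg, neg_mul, mul_inv_cancel₀ hb, inv_mul_cancel₀ hb, zero_add, add_zero]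
    have e1 : single i j (-b) = - single i j b := by rw [single_neg]
    have e2 : single j i (-b⁻¹) = - single j i b⁻¹ := by rw [single_neg]
    have e3 : single i i (-1 : ℂ) = - single i i 1 := by rw [single_neg]
    have e4 : single j j (-1 : ℂ) = - single j j 1 := by rw [single_neg]
    simp only [e1, e2, e3, e4, neg_mul, mul_neg, single_mul_single_same, mul_one, one_mul]
    abel
  have k1 := key a ha
  have k2 := key (-1) (by norm_num)
  have e0 : (-(-1 : ℂ)⁻¹) = 1 := by norm_num
  have e5 : ((-1 : ℂ))⁻¹ = -1 := by norm_num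
  rw [e0, e5] at k2
  refine Subtype.ext ?_
  change _ = ((1 + single i j a) * (1 + single j i (-a⁻¹)) * (1 + single i j a)) *
    ((1 + single i j (-1)) * (1 + single j i 1) * (1 + single i j (-1)) : Matrix (Fin m) (Fin m) ℂ)
  rw [k1, k2]
  have f1 : N * single i j (-1 : ℂ) = 0 := by
    rw [hN, sub_mul, sub_mul, one_mul, single_mul_single_same, single_mul_single_of_ne _ _ _ _ hij.symm,
      one_mul, sub_self, sub_zero]
  have f2 : N * single j i (-1 : ℂ) = 0 := by
    rw [hN, sub_mul, sub_mul, one_mul, single_mul_single_same, single_mul_single_of_ne _ _ _ _ hij,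
      one_mul, sub_zero, sub_self]
  have f3 : single i j a * N = 0 := by
    rw [hN, mul_sub, mul_sub, mul_one, single_mul_single_same, single_mul_single_of_ne _ _ _ _ hij.symm,
      mul_one, sub_zero, sub_self]
  have f4 : single j i a⁻¹ * N = 0 := by
    rw [hN, mul_sub, mul_sub, mul_one, single_mul_single_same, single_mul_single_of_ne _ _ _ _ hij,
      mul_one, sub_self, sub_zero]
  have f5 : N * N = N := by
    conv_lhs => rw [hN]
    have g1 : N * single i i (1 : ℂ) = 0 := by
      rw [hN, sub_mul, sub_mul, one_mul, single_mul_single_same,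
        single_mul_single_of_ne _ _ _ _ hij.symm, one_mul, sub_self, sub_zero]
    have g2 : N * single j j (1 : ℂ) = 0 := by
      rw [hN, sub_mul, sub_mul, one_mul, single_mul_single_same,
        single_mul_single_of_ne _ _ _ _ hij, one_mul, sub_zero, sub_self]
    rw [← hN, hN, mul_sub, mul_sub, ← hN, g1, g2, mul_one, sub_zero, sub_zero]
  have f6 : (single i j a * single j i (-1 : ℂ) : Matrix (Fin m) (Fin m) ℂ) = - single i i a := by
    rw [single_mul_single_same, mul_neg, mul_one, single_neg]
  have f7 : (single j i a⁻¹ * single i j (-1 : ℂ) : Matrix (Fin m) (Fin m) ℂ) = - single j j a⁻¹ := by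
    rw [single_mul_single_same, mul_neg, mul_one, single_neg]
  have f8 : (single i j a * single i j (-1 : ℂ) : Matrix (Fin m) (Fin m) ℂ) = 0 :=
    single_mul_single_of_ne _ _ _ _ hij.symm _
  have f9 : (single j i a⁻¹ * single j i (-1 : ℂ) : Matrix (Fin m) (Fin m) ℂ) = 0 :=
    single_mul_single_of_ne _ _ _ _ hij _
  have h : (N + single i j a - single j i a⁻¹) * (N + single i j (-1) - single j i (-1)) =
      N + single i i a + single j j a⁻¹ := by
    simp only [add_mul, mul_add, sub_mul, mul_sub, f1, f2, f3, f4, f5, f6, f7, f8, f9]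
    abel
  rw [h, hN]
  change diagonal (fun k : Fin m => if k = i then a else if k = j then a⁻¹ else 1) = _
  ext k l
  rw [Matrix.diagonal_apply, Matrix.add_apply, Matrix.add_apply, Matrix.sub_apply, Matrix.sub_apply,
    Matrix.one_apply, Matrix.single_apply, Matrix.single_apply, Matrix.single_apply,
    Matrix.single_apply]
  by_cases hkl : k = l
  · subst hkl
    by_cases hk : k = i
    · subst hk
      simp [hij, hij.symm]
    · have hk' : ¬ i = k := fun h => hk h.symm
      by_cases hk2 : k = j
      · subst hk2
        simp [hij, hij.symm]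
      · have hk2' : ¬ j = k := fun h => hk2 h.symm
        simp [hk, hk', hk2, hk2']
  · have c1 : ¬ (i = k ∧ i = l) := fun h => hkl (h.1.symm.trans h.2)
    have c2 : ¬ (j = k ∧ j = l) := fun h => hkl (h.1.symm.trans h.2)
    simp [hkl, c1, c2]

/-- `SL_m (ℂ)` is perfect. -/
theorem tPerf : S_Perf := by
  intro m
  refine le_antisymm le_top fun A _ => ?_
  rcases subsingleton_or_nontrivial (Fin m) with hs | hn
  · have : A = 1 := by
      haveI := hs
      rcases isEmpty_or_nonempty (Fin m) with he | ⟨⟨i⟩⟩
      · exact Subtype.ext (Matrix.ext fun k => (he.false k).elim)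
      · refine Subtype.ext (Matrix.ext fun k l => ?_)
        have h1 : (A : Matrix (Fin m) (Fin m) ℂ).det = 1 := A.2
        haveI : Unique (Fin m) := ⟨⟨i⟩, fun x => Subsingleton.elim _ _⟩
        rw [Matrix.det_unique] at h1
        rw [Subsingleton.elim k (default : Fin m), Subsingleton.elim l (default : Fin m), h1]
        simp
    rw [this]
    exact one_mem _
  · refine SpecialLinearGroup.diagonal_transvection_induction'
      (fun A => A ∈ commutator (SLm m)) A (fun i j hij c hc => ?_) (fun i j hij a => Perf_tv hij a)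
      (fun A B hA hB => mul_mem hA hB)
    rw [Perf_diag hij c hc]
    exact mul_mem (mul_mem (mul_mem (Perf_tv _ _) (Perf_tv _ _)) (Perf_tv _ _))
      (mul_mem (mul_mem (Perf_tv _ _) (Perf_tv _ _)) (Perf_tv _ _))

end PV
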