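import Pool.Agent.Lib.MP_3b3418_ag.PV.SpecH

/-!
# Trivial action on the cohomology of an extension (`S_Tri`)
-/

set_option autoImplicit false

namespace PV

open MP3s

section aux

variable {m : ℕ} {V W : Type} [AddCommGroup V] [Module ℂ V] [AddCommGroup W] [Module ℂ W]

private theorem Tri_cobL {X : Type} (p : ℕ) (L : V →ₗ[ℂ] W) (φ : (Fin (p + 1) → X) → V) :
    cob p (fun β => L (φ β)) = fun β => L (cob p φ β) := by
  funext β
  change ∑ k : Fin (p + 2), (-1 : ℂ) ^ (k : ℕ) • L (φ fun r => β (k.succAbove r)) =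
    L (∑ k : Fin (p + 2), (-1 : ℂ) ^ (k : ℕ) • φ fun r => β (k.succAbove r))
  rw [map_sum]
  exact Finset.sum_congr rfl fun k _ => (map_smul L _ _).symm

private theorem Tri_cobAdd {X : Type} (p : ℕ) (φ ψ : (Fin (p + 1) → X) → V) :
    cob p (fun β => φ β + ψ β) = fun β => cob p φ β + cob p ψ β := by
  funext β
  change ∑ k : Fin (p + 2), (-1 : ℂ) ^ (k : ℕ) • ((φ fun r => β (k.succAbove r)) +
      ψ fun r => β (k.succAbove r)) =
    (∑ k : Fin (p + 2), (-1 : ℂ) ^ (k : ℕ) • φ fun r => β (k.succAbove r)) +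
    ∑ k : Fin (p + 2), (-1 : ℂ) ^ (k : ℕ) • ψ fun r => β (k.succAbove r)
  rw [← Finset.sum_add_distrib]
  exact Finset.sum_congr rfl fun k _ => smul_add _ _ _

private theorem Tri_cobSub {X : Type} (p : ℕ) (φ ψ : (Fin (p + 1) → X) → V) :
    cob p (fun β => φ β - ψ β) = fun β => cob p φ β - cob p ψ β := by
  funext β
  change ∑ k : Fin (p + 2), (-1 : ℂ) ^ (k : ℕ) • ((φ fun r => β (k.succAbove r)) -
      ψ fun r => β (k.succAbove r)) =
    (∑ k : Fin (p + 2), (-1 : ℂ) ^ (k : ℕ) • φ fun r => β (k.succAbove r)) -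
    ∑ k : Fin (p + 2), (-1 : ℂ) ^ (k : ℕ) • ψ fun r => β (k.succAbove r)
  rw [← Finset.sum_sub_distrib]
  exact Finset.sum_congr rfl fun k _ => smul_sub _ _ _

private theorem Tri_map (ρ : Representation ℂ (Bo m) V) (ρ₁ : Representation ℂ (Bo m) W)
    (L : V →ₗ[ℂ] W) (hL : ∀ b v, L (ρ b v) = ρ₁ b (L v)) (q : ℕ)
    {ψ : (Fin (q + 1) → Bo m) → V} (h : IsCob ρ q ψ) : IsCob ρ₁ q (fun β => L (ψ β)) := by
  cases q with
  | zero =>
    have h1 : ψ = 0 := h
    change (fun β => L (ψ β)) = 0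
    rw [h1]
    funext β
    exact map_zero L
  | succ p =>
    obtain ⟨φ, hφ, he⟩ := h
    refine ⟨fun β => L (φ β), ⟨hφ.1.map L, fun b β => ?_⟩, ?_⟩
    · beta_reduce
      rw [hφ.2, hL]
    · rw [Tri_cobL, he]

private theorem Tri_zero (ρ : Representation ℂ (Bo m) V) (q : ℕ) :
    IsCob ρ q (0 : (Fin (q + 1) → Bo m) → V) := by
  cases q with
  | zero => rfl
  | succ p =>
    refine ⟨fun _ => 0, ⟨Reg.zero, fun b β => (map_zero _).symm⟩, ?_⟩
    funext β
    change ∑ k : Fin (p + 2), (-1 : ℂ) ^ (k : ℕ) • (0 : V) = 0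
    exact Finset.sum_eq_zero fun k _ => smul_zero _

private theorem Tri_add (ρ : Representation ℂ (Bo m) V) (q : ℕ)
    {ψ₁ ψ₂ : (Fin (q + 1) → Bo m) → V} (h₁ : IsCob ρ q ψ₁) (h₂ : IsCob ρ q ψ₂) :
    IsCob ρ q (ψ₁ + ψ₂) := by
  cases q with
  | zero =>
    have e₁ : ψ₁ = 0 := h₁
    have e₂ : ψ₂ = 0 := h₂
    change ψ₁ + ψ₂ = 0
    rw [e₁, e₂, add_zero]
  | succ p =>
    obtain ⟨φ₁, hφ₁, e₁⟩ := h₁
    obtain ⟨φ₂, hφ₂, e₂⟩ := h₂
    refine ⟨fun β => φ₁ β + φ₂ β, ⟨hφ₁.1.add hφ₂.1, fun b β => ?_⟩, ?_⟩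
    · beta_reduce
      rw [hφ₁.2, hφ₂.2, map_add]
    · rw [Tri_cobAdd, e₁, e₂]
      rfl

private theorem Tri_neg (ρ : Representation ℂ (Bo m) V) (q : ℕ)
    {ψ : (Fin (q + 1) → Bo m) → V} (h : IsCob ρ q ψ) : IsCob ρ q (-ψ) := by
  have h1 := Tri_map ρ ρ (-LinearMap.id : V →ₗ[ℂ] V) (fun b v => by
    change -(ρ b v) = ρ b (-v)
    rw [map_neg]) q h
  exact h1

/-- The coboundaries. -/
private def Tri_N (ρ : Representation ℂ (Bo m) V) (q : ℕ) :
    AddSubgroup ((Fin (q + 1) → Bo m) → V) where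
  carrier := {ψ | IsCob ρ q ψ}
  zero_mem' := Tri_zero ρ q
  add_mem' := fun h1 h2 => Tri_add ρ q h1 h2
  neg_mem' := fun h => Tri_neg ρ q h

end aux

theorem tTri : S_Perf → S_CC → S_Lift → S_Ker → S_VZ → S_Tri := by
  intro hP hCC hLift hKer hVZ m V' V V'' _ _ _ _ _ _ ρ' ρ ρ'' ι π τ' τ τ'' q hR hS hC hcom hZ' hZ''
    x c hc hc0
  obtain ⟨g, eg⟩ : ∃ g : SLm m → (V →ₗ[ℂ] V), ∀ z, g z = τ z - LinearMap.id :=
    ⟨fun z => τ z - LinearMap.id, fun _ => rfl⟩
  obtain ⟨g', eg'⟩ : ∃ g' : SLm m → (V' →ₗ[ℂ] V'), ∀ z, g' z = τ' z - LinearMap.id :=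
    ⟨fun z => τ' z - LinearMap.id, fun _ => rfl⟩
  obtain ⟨g'', eg''⟩ : ∃ g'' : SLm m → (V'' →ₗ[ℂ] V''), ∀ z, g'' z = τ'' z - LinearMap.id :=
    ⟨fun z => τ'' z - LinearMap.id, fun _ => rfl⟩
  rw [← eg]
  have gv : ∀ (z : SLm m) (v : V), g z v = τ z v - v := fun z v => by rw [eg]; rfl
  have gv' : ∀ (z : SLm m) (v : V'), g' z v = τ' z v - v := fun z v => by rw [eg']; rfl
  have gv'' : ∀ (z : SLm m) (v : V''), g'' z v = τ'' z v - v := fun z v => by rw [eg'']; rfl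
  have hZ1 : ∀ z, Zq ρ' (g' z) q := fun z => by rw [eg']; exact hZ' z
  have hZ2 : ∀ z, Zq ρ'' (g'' z) q := fun z => by rw [eg'']; exact hZ'' z
  have hg : ∀ (z : SLm m) (b : Bo m) (v : V), g z (ρ b v) = ρ b (g z v) := by
    intro z b v
    rw [gv, gv, map_sub, hcom z b v]
  have dec : ∀ z : SLm m, ∃ (E : (Fin (q + 1) → Bo m) → V) (φ' : (Fin (q + 1) → Bo m) → V'),
      IsCob ρ q E ∧ IsCoch ρ' q φ' ∧ cob q φ' = 0 ∧ ∀ β, g z (c β) = ι (φ' β) + E β := by
    intro z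
    have cD : IsCoch ρ q (fun β => g z (c β)) :=
      ⟨hc.1.map _, fun b β => by
        beta_reduce
        rw [hc.2, hg]⟩
    have cD0 : cob q (fun β => g z (c β)) = 0 := by
      rw [Tri_cobL, hc0]
      funext β
      exact map_zero _
    have pc : IsCoch ρ'' q (fun β => π (c β)) :=
      ⟨hc.1.map π, fun b β => by
        beta_reduce
        rw [hc.2, hS.eπ]⟩
    have pc0 : cob q (fun β => π (c β)) = 0 := by
      rw [Tri_cobL, hc0]
      funext β
      exact map_zero _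
    have h2 := hZ2 z _ pc pc0
    have hπ : ∀ β, π (g z (c β)) = g'' z (π (c β)) := by
      intro β
      rw [gv, gv'', map_sub, (hC z).h2]
    have fin : ∀ φ' : (Fin (q + 1) → Bo m) → V', cob q (fun β => ι (φ' β)) = 0 →
        cob q φ' = 0 := by
      intro φ' h
      rw [Tri_cobL] at h
      funext β
      apply hS.inj
      rw [Pi.zero_apply, map_zero]
      exact congrFun h β
    clear hZ' hZ'' hZ1 hZ2
    cases q with
    | zero =>
      have h3 : ∀ β, g'' z (π (c β)) = 0 := fun β => congrFun h2 β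
      obtain ⟨φ', hφ', he⟩ := hKer m V' V ρ' ρ ι hS.inj hS.eι 0 _ cD (fun β => by
        rw [← hS.ex, hπ, h3])
      refine ⟨0, φ', rfl, hφ', ?_, fun β => ?_⟩
      · apply fin
        have e : (fun β => ι (φ' β)) = fun β => g z (c β) := funext he
        rw [e]
        exact cD0
      · rw [he, Pi.zero_apply, add_zero]
    | succ p =>
      obtain ⟨χ'', hχ'', hχe⟩ := h2
      obtain ⟨χ, hχ, hπχ⟩ := hLift m V V'' ρ ρ'' π hR hS.surj hS.eπ p χ'' hχ''
      have hE : IsCoch ρ (p + 1) (cob p χ) := (hVZ m V V ρ ρ).2.2.2.2 p χ hχ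
      have hDE : IsCoch ρ (p + 1) (fun β => g z (c β) - cob p χ β) :=
        ((hVZ m V V ρ ρ).2.2.1 (p + 1) _ _ cD hE).2
      have hπE : ∀ β, π (cob p χ β) = g'' z (π (c β)) := by
        intro β
        have e1 := congrFun (Tri_cobL p π χ) β
        have e2 : (fun β => π (χ β)) = χ'' := funext hπχ
        rw [e2, hχe] at e1
        exact e1.symm
      obtain ⟨φ', hφ', he⟩ := hKer m V' V ρ' ρ ι hS.inj hS.eι (p + 1) _ hDE (fun β => by
        rw [← hS.ex, map_sub, hπ, hπE, sub_self])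
      refine ⟨cob p χ, φ', ⟨χ, hχ, rfl⟩, hφ', ?_, fun β => ?_⟩
      · apply fin
        have e : (fun β => ι (φ' β)) = fun β => g z (c β) - cob p χ β := funext he
        rw [e, Tri_cobSub, cD0, hCC]
        funext β
        exact sub_zero _
      · rw [he, sub_add_cancel]
  have key : ∀ y z : SLm m, IsCob ρ q (fun β => g y (g z (c β))) := by
    intro y z
    obtain ⟨E, φ', hE, hφ', hφ0, he⟩ := dec z
    have h1 := Tri_map ρ' ρ ι hS.eι q (hZ1 y φ' hφ' hφ0)
    have h2 := Tri_map ρ ρ (g y) (hg y) q hE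
    have h3 := Tri_add ρ q h1 h2
    have e : (fun β => g y (g z (c β))) = (fun β => ι (g' y (φ' β))) + fun β => g y (E β) := by
      funext β
      rw [he, map_add, Pi.add_apply, gv' y, map_sub, (hC y).h1, gv y (ι (φ' β))]
    rw [e]
    exact h3
  let f : SLm m →* Multiplicative (((Fin (q + 1) → Bo m) → V) ⧸ Tri_N ρ q) :=
    MonoidHom.mk' (fun z => Multiplicative.ofAdd
      (QuotientAddGroup.mk (fun β => g z (c β)))) (fun y z => by
        rw [← ofAdd_add, ← QuotientAddGroup.mk_add]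
        refine congrArg Multiplicative.ofAdd ?_
        rw [QuotientAddGroup.eq]
        have e : (-(fun β => g (y * z) (c β)) +
            ((fun β => g y (c β)) + fun β => g z (c β)) : (Fin (q + 1) → Bo m) → V) =
            -fun β => g y (g z (c β)) := by
          funext β
          change -(g (y * z) (c β)) + (g y (c β) + g z (c β)) = -(g y (g z (c β)))
          rw [gv, gv z, gv y, gv y, map_sub, map_mul]
          change -(τ y (τ z (c β)) - c β) + ((τ y (c β) - c β) + (τ z (c β) - c β)) =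
            -(τ y (τ z (c β)) - τ y (c β) - (τ z (c β) - c β))
          abel
        rw [e]
        exact Tri_neg ρ q (key y z))
  have hk : x ∈ f.ker := by
    have h1 := Abelianization.commutator_subset_ker f
    rw [hP m] at h1
    exact h1 (Subgroup.mem_top x)
  have h2 : f x = 1 := hk
  have h3 : (QuotientAddGroup.mk (fun β => g x (c β)) :
      ((Fin (q + 1) → Bo m) → V) ⧸ Tri_N ρ q) = 0 := h2
  exact (QuotientAddGroup.eq_zero_iff _).1 h3

end PV
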