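import Pool.Agent.Lib.MP_3b3418_ag.PV.SpecH

/-!
# PV, module VZ: basic facts on `Zq` and cochains
-/

set_option autoImplicit false

namespace PV

open MP3s

private theorem VZ_cob_map {X V V₁ : Type} [AddCommGroup V] [Module ℂ V] [AddCommGroup V₁]
    [Module ℂ V₁] (L : V →ₗ[ℂ] V₁) (p : ℕ) (φ : (Fin (p + 1) → X) → V) :
    cob p (fun β => L (φ β)) = fun β => L (cob p φ β) := by
  funext β
  unfold cob
  rw [map_sum]
  exact Finset.sum_congr rfl fun k _ => by rw [map_smul]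

private theorem VZ_coch_map {m : ℕ} {V V₁ : Type} [AddCommGroup V] [Module ℂ V] [AddCommGroup V₁]
    [Module ℂ V₁] {ρ : Representation ℂ (Bo m) V} {ρ₁ : Representation ℂ (Bo m) V₁}
    {p : ℕ} {φ : (Fin (p + 1) → Bo m) → V} (L : V →ₗ[ℂ] V₁) (h : IsCoch ρ p φ)
    (hL : ∀ b v, L (ρ b v) = ρ₁ b (L v)) : IsCoch ρ₁ p (fun β => L (φ β)) := by
  refine ⟨h.1.map L, fun b β => ?_⟩
  beta_reduce
  rw [h.2 b β, hL]

private theorem VZ_isCob_map {m : ℕ} {V V₁ : Type} [AddCommGroup V] [Module ℂ V] [AddCommGroup V₁]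
    [Module ℂ V₁] {ρ : Representation ℂ (Bo m) V} {ρ₁ : Representation ℂ (Bo m) V₁}
    (L : V →ₗ[ℂ] V₁) (hL : ∀ b v, L (ρ b v) = ρ₁ b (L v)) :
    ∀ (q : ℕ) (ψ : (Fin (q + 1) → Bo m) → V), IsCob ρ q ψ → IsCob ρ₁ q (fun β => L (ψ β)) := by
  intro q
  cases q with
  | zero =>
    intro ψ h
    have h' : ψ = 0 := h
    change (fun β => L (ψ β)) = 0
    funext β
    rw [h']
    exact map_zero L
  | succ p =>
    intro ψ h
    obtain ⟨φ, h1, h2⟩ := h
    refine ⟨fun β => L (φ β), VZ_coch_map L h1 hL, ?_⟩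
    rw [VZ_cob_map, h2]

private theorem VZ_cob_coch {m : ℕ} {V : Type} [AddCommGroup V] [Module ℂ V]
    {ρ : Representation ℂ (Bo m) V} {p : ℕ} {φ : (Fin (p + 1) → Bo m) → V} (h : IsCoch ρ p φ) :
    IsCoch ρ (p + 1) (cob p φ) := by
  constructor
  · unfold cob
    refine Reg.sum Finset.univ fun k _ => Reg.cSmul ?_ _
    exact h.1.comp (Mor.pi fun r => Mor.proj (k.succAbove r))
  · intro b β
    unfold cob
    rw [map_sum]
    refine Finset.sum_congr rfl fun k _ => ?_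
    rw [map_smul]
    exact congrArg (fun v => (-1 : ℂ) ^ (k : ℕ) • v) (h.2 b fun r => β (k.succAbove r))

/-- **VZ** (basic facts on `Zq` and cochains) -/
theorem tVZ : S_Mor → S_VZ := by
  intro _ m V V₁ _ _ _ _ ρ ρ₁
  refine ⟨?_, ?_, ?_, ?_, ?_⟩
  · intro f q hf hV φ h1 h2
    exact VZ_isCob_map f hf q _ (hV φ h1 h2)
  · intro e f f₁ q he hf hZ φ h1 h2
    have he' : ∀ b v, (e.symm : V₁ →ₗ[ℂ] V) (ρ₁ b v) = ρ b ((e.symm : V₁ →ₗ[ℂ] V) v) := by
      intro b v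
      apply e.injective
      change e (e.symm (ρ₁ b v)) = e (ρ b (e.symm v))
      rw [he, e.apply_symm_apply, e.apply_symm_apply]
    have h3 : IsCoch ρ q fun β => (e.symm : V₁ →ₗ[ℂ] V) (φ β) := VZ_coch_map _ h1 he'
    have h4 : cob q (fun β => (e.symm : V₁ →ₗ[ℂ] V) (φ β)) = 0 := by
      rw [VZ_cob_map, h2]
      funext β
      exact map_zero _
    have h5 := VZ_isCob_map (e : V →ₗ[ℂ] V₁) he q _ (hZ _ h3 h4)
    have h6 : (fun β => (e : V →ₗ[ℂ] V₁) (f ((e.symm : V₁ →ₗ[ℂ] V) (φ β)))) =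
        fun β => f₁ (φ β) := by
      funext β
      change e (f (e.symm (φ β))) = f₁ (φ β)
      rw [← hf, e.apply_symm_apply]
    rw [h6] at h5
    exact h5
  · intro p φ ψ h1 h2
    refine ⟨⟨h1.1.add h2.1, fun b β => ?_⟩, ⟨h1.1.sub h2.1, fun b β => ?_⟩⟩
    · beta_reduce
      rw [h1.2, h2.2, map_add]
    · beta_reduce
      rw [h1.2, h2.2, map_sub]
  · intro p φ L h hL
    exact VZ_coch_map L h hL
  · intro p φ h
    exact VZ_cob_coch h

end PV
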