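import Pool.Agent.Lib.MP_3b3418_ag.PV.SpecH

/-!
# LF: vanishing in degree one passes to the kernel if the invariants lift

A cocycle of the kernel in degree `1` is a coboundary in the middle term; the cochain in degree `0`
can be corrected by an invariant vector so that it takes values in the kernel.
-/

set_option autoImplicit false

namespace PV

open MP3s

private theorem LF_cob_map {X V W : Type} [AddCommGroup V] [Module ℂ V] [AddCommGroup W]
    [Module ℂ W] (L : V →ₗ[ℂ] W) (p : ℕ) (φ : (Fin (p + 1) → X) → V) (β : Fin (p + 2) → X) :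
    cob p (fun γ => L (φ γ)) β = L (cob p φ β) := by
  unfold cob
  rw [map_sum]
  exact Finset.sum_congr rfl fun k _ => by rw [map_smul]

private theorem LF_fin (r : Fin (0 + 1)) : r = 0 := by
  rcases r with ⟨k, hk⟩
  exact Fin.ext (Nat.lt_one_iff.1 hk)

private theorem LF_cob_zero {X V : Type} [AddCommGroup V] [Module ℂ V] (φ : (Fin (0 + 1) → X) → V)
    (β : Fin (0 + 2) → X) : cob 0 φ β = φ (fun _ => β 1) - φ (fun _ => β 0) := by
  have h0 : (fun r : Fin (0 + 1) => β ((0 : Fin (0 + 2)).succAbove r)) = fun _ => β 1 := by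
    funext r
    have hr : r = 0 := LF_fin r
    subst hr
    rfl
  have h1 : (fun r : Fin (0 + 1) => β ((1 : Fin (0 + 2)).succAbove r)) = fun _ => β 0 := by
    funext r
    have hr : r = 0 := LF_fin r
    subst hr
    rfl
  unfold cob
  rw [Fin.sum_univ_two, h0, h1]
  simp [sub_eq_add_neg]

private theorem LF_const {X : Type} (β : Fin (0 + 1) → X) : β = fun _ => β 0 := by
  funext r
  have hr : r = 0 := LF_fin r
  rw [hr]

theorem tLF : S_CC → S_Lift → S_Ker → S_VZ → S_LF := by
  intro _ _ hKer _ m V' V V'' _ _ _ _ _ _ ρ' ρ ρ'' ι π _ hS hinv hV c' hc' hd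
  -- the image of the cocycle in the middle term
  have h1 : IsCoch ρ 1 (fun β => ι (c' β)) := by
    refine ⟨hc'.1.map ι, fun b β => ?_⟩
    beta_reduce
    rw [hc'.2 b β, hS.eι]
  have h2 : cob 1 (fun β => ι (c' β)) = 0 := by
    funext β
    rw [LF_cob_map, hd]
    exact map_zero ι
  obtain ⟨φ, hφ, hcob⟩ := hV _ h1 h2
  have hcob' : ∀ β, cob 0 φ β = ι (c' β) := fun β => congrFun hcob β
  -- the image in the quotient is constant
  have h3 : ∀ a b : Bo m, π (φ fun _ => a) = π (φ fun _ => b) := by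
    intro a b
    have h4 := hcob' (fun k : Fin (0 + 2) => if k = 0 then b else a)
    rw [LF_cob_zero] at h4
    have h5 : π (ι (c' (fun k : Fin (0 + 2) => if k = 0 then b else a))) = 0 :=
      (hS.ex _).2 ⟨_, rfl⟩
    rw [← h4, map_sub] at h5
    have h6 := sub_eq_zero.1 h5
    simpa using h6
  have h7 : ∀ b : Bo m, ρ'' b (π (φ fun _ => 1)) = π (φ fun _ => 1) := by
    intro b
    rw [← hS.eπ, ← hφ.2 b]
    exact h3 _ _
  obtain ⟨v, hv, hπ⟩ := hinv _ h7
  -- the corrected cochain
  have h8 : IsCoch ρ 0 (fun β => φ β - v) := by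
    refine ⟨hφ.1.sub (Reg.const v), fun b β => ?_⟩
    beta_reduce
    rw [hφ.2 b β, map_sub, hv b]
  have h9 : ∀ β, ∃ u, ι u = (fun β => φ β - v) β := by
    intro β
    refine (hS.ex _).1 ?_
    beta_reduce
    rw [map_sub, hπ, LF_const β, h3 (β 0) 1, sub_self]
  obtain ⟨χ, hχ, hιχ⟩ := hKer m V' V ρ' ρ ι hS.inj hS.eι 0 _ h8 h9
  refine ⟨χ, hχ, ?_⟩
  funext β
  refine hS.inj ?_
  change ι (cob 0 χ β) = ι (c' β)
  rw [← hcob' β, LF_cob_zero, LF_cob_zero, map_sub, hιχ, hιχ]
  exact sub_sub_sub_cancel_right _ _ _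

end PV
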