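import Pool.Agent.Lib.MP_3b3418_ag.PV.SpecH

/-!
# Multiplication, inversion and characters are regular
-/

set_option autoImplicit false

namespace PV

open MP3s

private theorem Mor_ent {m : ℕ} (i j : Fin m) : RegF fun g : SLm m => mat g i j :=
  RegF.co (X := SLm m) (i, j)

private theorem Mor_entB {m : ℕ} (i j : Fin m) : RegF fun g : Bo m => mat g.1 i j :=
  RegF.co (X := Bo m) (i, j)

private theorem Mor_det {X : Type} [Co X] {m : ℕ} {M : X → Matrix (Fin m) (Fin m) ℂ}
    (hM : ∀ i j, RegF fun x => M x i j) : RegF fun x => (M x).det := by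
  have h : RegF fun x => ∑ σ : Equiv.Perm (Fin m),
      ((Equiv.Perm.sign σ : ℤ) : ℂ) * ∏ i, M x (σ i) i :=
    RegF.sum _ fun σ _ => (RegF.const _).mul (RegF.prod _ fun i _ => hM (σ i) i)
  have e : (fun x => (M x).det) = fun x => ∑ σ : Equiv.Perm (Fin m),
      ((Equiv.Perm.sign σ : ℤ) : ℂ) * ∏ i, M x (σ i) i := by
    funext x
    exact Matrix.det_apply' (M x)
  rw [e]
  exact h

private theorem Mor_adj {X : Type} [Co X] {m : ℕ} {M : X → Matrix (Fin m) (Fin m) ℂ}
    (hM : ∀ i j, RegF fun x => M x i j) (i j : Fin m) : RegF fun x => (M x).adjugate i j := by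
  have h : RegF fun x => ((M x).updateRow j (Pi.single i 1)).det := by
    refine Mor_det fun k l => ?_
    by_cases hk : k = j
    · have e : (fun x => (M x).updateRow j (Pi.single i 1) k l) =
          fun _ => (Pi.single i 1 : Fin m → ℂ) l := by
        funext x
        rw [hk, Matrix.updateRow_self]
      rw [e]
      exact RegF.const _
    · have e : (fun x => (M x).updateRow j (Pi.single i 1) k l) = fun x => M x k l := by
        funext x
        rw [Matrix.updateRow_ne hk]
      rw [e]
      exact hM k l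
  have e : (fun x => (M x).adjugate i j) =
      fun x => ((M x).updateRow j (Pi.single i 1)).det := by
    funext x
    exact Matrix.adjugate_apply (M x) i j
  rw [e]
  exact h

private theorem Mor_inv {m : ℕ} (g : SLm m) : mat g⁻¹ = (mat g).adjugate :=
  Matrix.SpecialLinearGroup.coe_inv g

private theorem Mor_invSL (m : ℕ) : Mor (fun g : SLm m => g⁻¹) := by
  rintro ⟨i, j⟩
  have h := Mor_adj (X := SLm m) (M := fun g => mat g) (fun i j => Mor_ent i j) i j
  have e : (fun g : SLm m => Co.co g⁻¹ ((i, j) : Co.I (SLm m))) =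
      fun g => (mat g).adjugate i j := by
    funext g
    change mat g⁻¹ i j = _
    rw [Mor_inv]
  rw [e]
  exact h

private theorem Mor_invB (m : ℕ) : Mor (fun g : Bo m => g⁻¹) := by
  rintro ⟨i, j⟩
  have h := Mor_adj (X := Bo m) (M := fun g => mat g.1) (fun i j => Mor_entB i j) i j
  have e : (fun g : Bo m => Co.co g⁻¹ ((i, j) : Co.I (Bo m))) =
      fun g => (mat g.1).adjugate i j := by
    funext g
    change mat (g.1)⁻¹ i j = _
    rw [Mor_inv]
  rw [e]
  exact h

private theorem Mor_mulSL (m : ℕ) : Mor (fun p : SLm m × SLm m => p.1 * p.2) := by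
  rintro ⟨i, j⟩
  have h : RegF fun p : SLm m × SLm m => ∑ k, mat p.1 i k * mat p.2 k j :=
    RegF.sum _ fun k _ => ((Mor_ent i k).comp Mor.fst).mul ((Mor_ent k j).comp Mor.snd)
  have e : (fun p : SLm m × SLm m => Co.co (p.1 * p.2) ((i, j) : Co.I (SLm m))) =
      fun p => ∑ k, mat p.1 i k * mat p.2 k j := by
    funext p
    change mat (p.1 * p.2) i j = _
    rw [mat_mul, Matrix.mul_apply]
  rw [e]
  exact h

private theorem Mor_mulB (m : ℕ) : Mor (fun p : Bo m × Bo m => p.1 * p.2) := by
  rintro ⟨i, j⟩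
  have h : RegF fun p : Bo m × Bo m => ∑ k, mat p.1.1 i k * mat p.2.1 k j :=
    RegF.sum _ fun k _ => ((Mor_entB i k).comp Mor.fst).mul ((Mor_entB k j).comp Mor.snd)
  have e : (fun p : Bo m × Bo m => Co.co (p.1 * p.2) ((i, j) : Co.I (Bo m))) =
      fun p => ∑ k, mat p.1.1 i k * mat p.2.1 k j := by
    funext p
    change mat (p.1.1 * p.2.1) i j = _
    rw [mat_mul, Matrix.mul_apply]
  rw [e]
  exact h

private theorem Mor_chr (m : ℕ) (χ : Fin m → ℤ) : RegF fun b : Bo m => chr χ b := by
  refine RegF.prod (X := Bo m) Finset.univ fun i _ => ?_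
  have h0 : RegF fun b : Bo m => mB b i i := Mor_entB i i
  have h1 : RegF fun b : Bo m => mB b⁻¹ i i := h0.comp (Mor_invB m)
  obtain ⟨n, hn | hn⟩ := (χ i).eq_nat_or_neg
  · rw [hn]
    simp only [zpow_natCast]
    exact h0.pow n
  · rw [hn]
    have e : (fun b : Bo m => mB b i i ^ (-(n : ℤ))) = fun b => mB b⁻¹ i i ^ n := by
      funext b
      have h2 : mB b i i * mB b⁻¹ i i = 1 := by
        rw [← mB_diag_mul, mul_inv_cancel]
        exact Matrix.one_apply_eq i
      rw [zpow_neg, zpow_natCast, ← inv_pow]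
      congr 1
      exact inv_eq_of_mul_eq_one_right h2
    rw [e]
    exact h1.pow n

theorem tMor : S_Mor := fun m =>
  ⟨Mor_mulSL m, Mor_invSL m, Mor_mulB m, Mor_invB m, fun q => Mor_entB q.1 q.2, Mor_chr m⟩

end PV
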